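import Pool.Agent.H170_FG.Lr7

/-!
# Drinfeld doubles of finite supergroup schemes with linearly reductive even part
-/

universe u

namespace Pool.Agent.Results.MP_0c1793_al.LinearlyReductive

open Pool.Agent.H170_FG

/-- Let `k` be a field of characteristic different from 2, `D` the structure constants of a finite
supergroup scheme with diagonalizable even part (the bracket on the odd part may be nonzero), `F` an
action on it of a finite group `Γ` of order invertible in `k`, and `H` the bosonized group
superalgebra of the semidirect product. Then the Drinfeld double of `H` has finitely generated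
cohomology. -/
theorem result {k : Type u} [Field k] (h2 : (2 : k) ≠ 0) {C : Type} [CommGroup C] [Fintype C]
    [DecidableEq C] {n : ℕ} {D : SGrp k C n} {Γ : Type} [Group Γ] [Fintype Γ]
    (hΓ : (Fintype.card Γ : k) ≠ 0) {F : D.Act Γ} {H : Type u} [Ring H] [Bialgebra k H]
    {e : C → H} {x : Fin n → H} {u : Γ → H} (M : D.GModel F e x u) : FGC k (Double.eps k H) :=
  M.fgc h2 hΓ

end Pool.Agent.Results.MP_0c1793_al.LinearlyReductive
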